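import Pool.Agent.N838.BT.Stm

/-!
# BT/PAIR: an iid family of independent pairs is a pair of independent iid families (helper704)
-/

set_option autoImplicit false

open MeasureTheory Set

namespace N704.BT

theorem univ_mem (Z : Type) [MeasurableSpace Z] :
    (univ : Set (List ℕ → Z)) ∈ squareCylinders (fun _ : List ℕ => {s : Set Z | MeasurableSet s}) := by
  refine ⟨∅, fun _ => univ, ?_, ?_⟩
  · intro i _
    exact MeasurableSet.univ
  · simp

theorem t_PAIR : N838.BT.PAIR := by
  classical
  intro X Y _ _ μ _ ρ _
  symm
  refine Measure.prod_eq_generateFrom generateFrom_squareCylinders generateFrom_squareCylinders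
    (isPiSystem_squareCylinders (fun _ => MeasurableSpace.isPiSystem_measurableSet) (by simp))
    (isPiSystem_squareCylinders (fun _ => MeasurableSpace.isPiSystem_measurableSet) (by simp))
    ⟨fun _ => univ, fun _ => univ_mem X, fun _ => by simp, iUnion_const _⟩
    ⟨fun _ => univ, fun _ => univ_mem Y, fun _ => by simp, iUnion_const _⟩ ?_
  rintro _ ⟨s, a, ha, rfl⟩ _ ⟨t, b, hb, rfl⟩
  have ha' : ∀ i, MeasurableSet (a i) := fun i => ha i (mem_univ i)
  have hb' : ∀ i, MeasurableSet (b i) := fun i => hb i (mem_univ i)
  have hsa : MeasurableSet ((s : Set (List ℕ)).pi a) :=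
    MeasurableSet.pi s.countable_toSet fun i _ => ha' i
  have htb : MeasurableSet ((t : Set (List ℕ)).pi b) :=
    MeasurableSet.pi t.countable_toSet fun i _ => hb' i
  rw [Measure.map_apply (by fun_prop) (hsa.prod htb)]
  have hpre : (fun ζ : List ℕ → X × Y => ((fun u => (ζ u).1), fun u => (ζ u).2)) ⁻¹'
      ((s : Set (List ℕ)).pi a ×ˢ (t : Set (List ℕ)).pi b) =
      ((s ∪ t : Finset (List ℕ)) : Set (List ℕ)).pi
        (fun u => (if u ∈ s then a u else univ) ×ˢ (if u ∈ t then b u else univ)) := by
    ext ζ
    simp only [mem_preimage, mem_prod, Set.mem_pi, Finset.coe_union, mem_union, Finset.mem_coe]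
    constructor
    · rintro ⟨h1, h2⟩ u _
      constructor
      · split_ifs with hu
        · exact h1 u hu
        · exact mem_univ _
      · split_ifs with hu
        · exact h2 u hu
        · exact mem_univ _
    · intro h
      constructor
      · intro u hu
        have := (h u (Or.inl hu)).1
        rwa [if_pos hu] at this
      · intro u hu
        have := (h u (Or.inr hu)).2
        rwa [if_pos hu] at this
  rw [hpre, Measure.infinitePi_pi, Measure.infinitePi_pi, Measure.infinitePi_pi]
  · simp only [Measure.prod_prod]
    rw [Finset.prod_mul_distrib]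
    congr 1
    · rw [← Finset.prod_subset (Finset.subset_union_left (s₁ := s) (s₂ := t))]
      · exact Finset.prod_congr rfl fun u hu => by rw [if_pos hu]
      · intro u _ hu
        rw [if_neg hu, measure_univ]
    · rw [← Finset.prod_subset (Finset.subset_union_right (s₁ := s) (s₂ := t))]
      · exact Finset.prod_congr rfl fun u hu => by rw [if_pos hu]
      · intro u _ hu
        rw [if_neg hu, measure_univ]
  · exact fun i _ => hb' i
  · exact fun i _ => ha' i
  · intro u _
    refine MeasurableSet.prod ?_ ?_
    · split_ifs
      · exact ha' u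
      · exact MeasurableSet.univ
    · split_ifs
      · exact hb' u
      · exact MeasurableSet.univ

end N704.BT
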